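import Pool.Agent.Helper17.Blowup.Ext

/-!
# Extremal rays of positive anticanonical degree on blow-ups of projective space

Let `X` be the blow-up of `ℙⁿ` over `ℂ` at `s` very general points `p_1, …, p_s`. We prove that
every extremal ray of the closure of the cone of effective divisor classes of `X` on which the
anticanonical curve class `F = (n+1) h - e_1 - … - e_s` is positive is spanned by a Weyl divisor,
that is, by a class in the orbit of an exceptional divisor under the group generated by the
permutations of the points and the standard Cremona transformations. This holds for all `n ≥ 2`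
and `s ≥ n + 1`; the question is posed for `n ≥ 3`, `s ≥ n + 4`.

A divisor class `d H - ∑ m_i E_i` on `X` is recorded by the pair `(d, m)`. Its space of sections is
the space of forms of degree `d` on `ℙⁿ` vanishing to order at least `m_i` at `p_i`, and effectivity
is defined through this description.
-/

namespace Pool.Agent.Results.MP_e075e6_ag.PositiveExtremalRays

open MvPolynomial
open scoped NNReal

/-- Integral divisor classes on the blow-up `X` of `ℙⁿ` at `s` points, in the basis
`H, E_1, …, E_s`: the pair `(d, m)` stands for `d H - ∑ i, m i • E_i`. -/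
abbrev DivClass (s : ℕ) : Type := ℤ × (Fin s → ℤ)

/-- The real vector space `N¹(X)_ℝ`, in the basis `H, E_1, …, E_s`: the pair `(d, m)` stands for
`d H - ∑ i, m i • E_i`. -/
abbrev N1 (s : ℕ) : Type := ℝ × (Fin s → ℝ)

/-- The image of an integral class in `N¹(X)_ℝ`. -/
def toReal {s : ℕ} (D : DivClass s) : N1 s := ((D.1 : ℝ), fun i => (D.2 i : ℝ))

/-- The polynomial `f` vanishes to order at least `m` at `p`: it lies in the `m`-th power of the
ideal of all polynomials vanishing at `p`. For a form `f` and `p ≠ 0` this says that the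
hypersurface `f = 0` of `ℙⁿ` has multiplicity at least `m` at the point `[p]`. -/
def VanishesToOrder {n : ℕ} (f : MvPolynomial (Fin (n + 1)) ℂ) (p : Fin (n + 1) → ℂ) (m : ℕ) :
    Prop :=
  f ∈ vanishingIdeal ℂ ({p} : Set (Fin (n + 1) → ℂ)) ^ m

/-- The class `D = (d, m)` is effective on the blow-up of `ℙⁿ` at the points with homogeneous
coordinates `p i`: there is a nonzero form of degree `d` that vanishes to order at least `m i` at
`p i` for every `i` (no condition where `m i ≤ 0`). -/
def IsEffective {n s : ℕ} (p : Fin s → Fin (n + 1) → ℂ) (D : DivClass s) : Prop :=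
  0 ≤ D.1 ∧ ∃ f : MvPolynomial (Fin (n + 1)) ℂ, f ≠ 0 ∧ f.IsHomogeneous D.1.toNat ∧
    ∀ i, VanishesToOrder f (p i) (D.2 i).toNat

/-- The pseudo-effective cone of the blow-up at the points `p i`: the closure in `N¹(X)_ℝ` of the
convex cone spanned by the effective classes. -/
def PseudoEffectiveCone {n s : ℕ} (p : Fin s → Fin (n + 1) → ℂ) : Set (N1 s) :=
  closure (Submodule.span ℝ≥0 (toReal '' {D | IsEffective p D}) : Set (N1 s))

/-- The pairing of `(d, m)` with the anticanonical curve class `F = (n+1) h - ∑ e_i`. -/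
def dotF {s : ℕ} (n : ℕ) (v : N1 s) : ℝ := ((n : ℝ) + 1) * v.1 - ∑ i, v.2 i

/-- The ray `ℝ_{≥0} v`. -/
def ray {s : ℕ} (v : N1 s) : Set (N1 s) := {x | ∃ t : ℝ, 0 ≤ t ∧ x = t • v}

/-- The action on classes of the standard Cremona transformation based at the points with index in
`I` (where `I` has `n + 1` elements): with `k = (n-1) d - ∑ i ∈ I, m i`, it sends `d` to `d + k`,
`m i` to `m i + k` for `i ∈ I`, and leaves the other `m i` unchanged. -/
def cremona {s : ℕ} (n : ℕ) (I : Finset (Fin s)) (D : DivClass s) : DivClass s :=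
  (D.1 + (((n : ℤ) - 1) * D.1 - ∑ j ∈ I, D.2 j),
    fun i => if i ∈ I then D.2 i + (((n : ℤ) - 1) * D.1 - ∑ j ∈ I, D.2 j) else D.2 i)

/-- Weyl divisors: the classes in the orbit of some exceptional divisor `E_i` under the group
generated by the permutations of the points and the standard Cremona transformations. -/
inductive IsWeylDivisor {s : ℕ} (n : ℕ) : DivClass s → Prop
  | exceptional (i : Fin s) : IsWeylDivisor n (0, fun j => if j = i then -1 else 0)
  | permute (σ : Equiv.Perm (Fin s)) {D : DivClass s} :
      IsWeylDivisor n D → IsWeylDivisor n (D.1, fun i => D.2 (σ i))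
  | cremona (I : Finset (Fin s)) (hI : I.card = n + 1) {D : DivClass s} :
      IsWeylDivisor n D → IsWeylDivisor n (cremona n I D)

/-- The property `Q` of `s`-tuples of points of `ℙⁿ`, given by vectors of homogeneous coordinates,
holds for very general points: it holds outside the zero sets of countably many nonzero
polynomials in the coordinates. -/
def HoldsForVeryGeneralPoints {n s : ℕ} (Q : (Fin s → Fin (n + 1) → ℂ) → Prop) : Prop :=
  ∃ Z : Set (MvPolynomial (Fin s × Fin (n + 1)) ℂ), Z.Countable ∧ (∀ P ∈ Z, P ≠ 0) ∧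
    ∀ p : Fin s → Fin (n + 1) → ℂ, (∀ P ∈ Z, eval (fun ij => p ij.1 ij.2) P ≠ 0) → Q p

open Pool.Agent.Helper17.Blowup in
/-- Internal Weyl divisors are Weyl divisors. -/
lemma isWeylDivisor_of_isW {n s : ℕ} (hs : n + 1 ≤ s) {D : DivClass s} (h : IsW n D) :
    IsWeylDivisor n D := by
  classical
  obtain ⟨i, hi⟩ := h
  unfold WOrb at hi
  induction hi with
  | base => exact IsWeylDivisor.exceptional i
  | @perm σ _ D _ ih => exact IsWeylDivisor.permute σ ih
  | @crem _ D _ ih =>
      have h1 := IsWeylDivisor.cremona (Finset.univ.filter fun i : Fin s => (i : ℕ) < n + 1) ?_ ih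
      · convert h1 using 1
        refine Prod.ext ?_ ?_
        · simp only [crem0, cremona]
          rw [Finset.sum_filter]
        · funext j
          simp only [crem0, cremona, Finset.mem_filter, Finset.mem_univ, true_and]
          rw [Finset.sum_filter]
      · rw [Fin.card_filter_val_lt]
        omega

open Pool.Agent.Helper17.Blowup in
/-- The theorem for points whose coordinates are algebraically independent over `ℚ`. -/
theorem of_algebraicIndependent {n s : ℕ} (hn : 2 ≤ n) (hs : n + 1 ≤ s)
    (p : Fin s → Fin (n + 1) → ℂ)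
    (hp : AlgebraicIndependent ℚ (fun ij : Fin s × Fin (n + 1) => p ij.1 ij.2))
    (v : N1 s) (hv : IsExtreme ℝ (PseudoEffectiveCone p) (ray v)) (hF : 0 < dotF n v) :
    ∃ D : DivClass s, IsWeylDivisor n D ∧ ray v = ray (toReal D) := by
  have hmem : v ∈ PseudoEffectiveCone p := hv.subset ⟨1, zero_le_one, (one_smul ℝ v).symm⟩
  have hscale : ∀ x ∈ PseudoEffectiveCone p, (2 : ℝ) • x ∈ PseudoEffectiveCone p := by
    intro x hx
    refine map_mem_closure (f := fun y : N1 s => (2 : ℝ) • y) (continuous_const_smul 2) hx ?_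
    intro y hy
    exact nn_smul_mem hy (by norm_num)
  have hext : ∀ x ∈ PseudoEffectiveCone p, ∀ y ∈ PseudoEffectiveCone p, x + y = v →
      ∃ a : ℝ, 0 ≤ a ∧ x = a • v := by
    intro x hx y hy hxy
    have h1 : v ∈ openSegment ℝ ((2 : ℝ) • x) ((2 : ℝ) • y) := by
      refine ⟨1 / 2, 1 / 2, by norm_num, by norm_num, by norm_num, ?_⟩
      rw [smul_smul, smul_smul]
      norm_num
      exact hxy
    obtain ⟨t, ht, hxt⟩ := hv.left_mem_of_mem_openSegment (hscale x hx) (hscale y hy)
      ⟨1, zero_le_one, (one_smul ℝ v).symm⟩ h1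
    refine ⟨t / 2, by positivity, ?_⟩
    have h2 : x = (1 / 2 : ℝ) • ((2 : ℝ) • x) := by rw [smul_smul]; norm_num
    rw [h2, hxt, smul_smul]
    congr 1; ring
  obtain ⟨D, hD, t, ht, hvt⟩ := extremal_ray hn hs (p := p) hp (v := v) hmem hext hF
  refine ⟨D, isWeylDivisor_of_isW hs hD, ?_⟩
  have hvt' : v = t • toReal D := hvt
  ext x
  constructor
  · rintro ⟨a, ha, rfl⟩
    exact ⟨a * t, by positivity, by rw [hvt', smul_smul]⟩
  · rintro ⟨a, ha, rfl⟩
    refine ⟨a / t, by positivity, ?_⟩
    rw [hvt', smul_smul, div_mul_cancel₀ _ ht.ne']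

/-- **Extremal rays of positive anticanonical degree are spanned by Weyl divisors.** For very
general points `p_1, …, p_s` of `ℙⁿ`, `n ≥ 2`, `s ≥ n + 1`, every extremal ray of the
pseudo-effective cone of the blow-up on which `F` is positive is spanned by a Weyl divisor. -/
theorem result (n s : ℕ) (hn : 2 ≤ n) (hs : n + 1 ≤ s) :
    HoldsForVeryGeneralPoints (n := n) (s := s) fun p =>
      ∀ v : N1 s, IsExtreme ℝ (PseudoEffectiveCone p) (ray v) → 0 < dotF n v →
        ∃ D : DivClass s, IsWeylDivisor n D ∧ ray v = ray (toReal D) := by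
  refine ⟨(fun P : MvPolynomial (Fin s × Fin (n + 1)) ℚ => map (algebraMap ℚ ℂ) P) '' {P | P ≠ 0},
    ?_, ?_, ?_⟩
  · have : Countable (MvPolynomial (Fin s × Fin (n + 1)) ℚ) := by
      rw [← Cardinal.mk_le_aleph0_iff]
      refine (MvPolynomial.cardinalMk_le_max).trans ?_
      exact max_le (max_le Cardinal.mk_le_aleph0 Cardinal.mk_le_aleph0) le_rfl
    exact (Set.to_countable _).image _
  · rintro _ ⟨P, hP, rfl⟩ h
    apply hP
    exact map_injective (algebraMap ℚ ℂ) (algebraMap ℚ ℂ).injective (h.trans (map_zero _).symm)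
  · intro p hp v hv hF
    refine of_algebraicIndependent hn hs p ?_ v hv hF
    rw [algebraicIndependent_iff]
    intro P hP
    by_contra hne
    apply hp _ ⟨P, hne, rfl⟩
    rw [eval_map, ← aeval_def]
    exact hP

end Pool.Agent.Results.MP_e075e6_ag.PositiveExtremalRays
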